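import Pool.Agent.W2helper37.SG.Stm3

/-!
# Piece ALT of project SG, part 2: a symplectic basis
-/

namespace Pool.Agent.W2helper91.SG

universe w

theorem alt_aux (K : Type w) [Field K] [CharZero K] : ∀ (d : ℕ) (V : Type w) [AddCommGroup V]
    [Module K V] [Module.Finite K V] (B : V →ₗ[K] V →ₗ[K] K), Module.finrank K V = d →
    (∀ x y, B x y = -B y x) → (∀ x, (∀ y, B x y = 0) → x = 0) →
    ∃ (n : ℕ) (v : Module.Basis (Fin n × Bool) K V),
      ∀ i j, B (v i) (v j) = if j = (i.1, !i.2) then (if i.2 then 1 else -1) else 0 := by
  intro d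
  induction d using Nat.strong_induction_on with
  | _ d ih =>
  intro V _ _ _ B hd hskew hnd
  by_cases hV : Subsingleton V
  · refine ⟨0, Module.Basis.empty V, ?_⟩
    rintro ⟨i, _⟩
    exact i.elim0
  · have hself : ∀ x, B x x = 0 := fun x => by
      have h1 := hskew x x
      have h2 : (2 : K) * B x x = 0 := by linear_combination h1
      exact (mul_eq_zero.mp h2).resolve_left two_ne_zero
    obtain ⟨x, hx⟩ : ∃ x : V, x ≠ 0 := by
      rw [not_subsingleton_iff_nontrivial] at hV
      exact exists_ne 0
    obtain ⟨y0, hy0⟩ : ∃ y, B x y ≠ 0 := by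
      by_contra hcon
      push Not at hcon
      exact hx (hnd x hcon)
    obtain ⟨y, hxy⟩ : ∃ y, B x y = 1 := ⟨(B x y0)⁻¹ • y0, by
      rw [map_smul, smul_eq_mul, inv_mul_cancel₀ hy0]⟩
    have hyx : B y x = -1 := by rw [hskew, hxy]
    set W : Submodule K V := LinearMap.ker (B x) ⊓ LinearMap.ker (B y) with hW
    have hWmem : ∀ z, z ∈ W ↔ B x z = 0 ∧ B y z = 0 := by
      intro z
      rw [hW, Submodule.mem_inf, LinearMap.mem_ker, LinearMap.mem_ker]
    have hdec : ∀ z, z - B z y • x + B z x • y ∈ W := by
      intro z
      rw [hWmem]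
      constructor
      · simp only [map_add, map_sub, map_smul, smul_eq_mul, hself, hxy]
        have := hskew x z
        linear_combination this
      · simp only [map_add, map_sub, map_smul, smul_eq_mul, hself, hyx]
        have := hskew y z
        linear_combination this
    have hlt : Module.finrank K W < d := by
      rw [← hd]
      apply Submodule.finrank_lt
      intro h
      have h1 : x ∈ W := by rw [h]; exact Submodule.mem_top
      have h2 := ((hWmem x).mp h1).2
      rw [hyx] at h2
      norm_num at h2
    obtain ⟨n, w, hw⟩ := ih _ hlt W (B.domRestrict₁₂ W W) rfl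
      (fun a b => by
        simp only [LinearMap.domRestrict₁₂_apply]
        exact hskew a b)
      (fun a ha => by
        have h1 : (a : V) = 0 := by
          apply hnd
          intro u
          have h2 := ha ⟨_, hdec u⟩
          simp only [LinearMap.domRestrict₁₂_apply, map_add, map_sub, map_smul,
            smul_eq_mul] at h2
          have h3 := (hWmem a).mp a.2
          have h4 := hskew (a : V) x
          have h5 := hskew (a : V) y
          rw [h3.1] at h4
          rw [h3.2] at h5
          rw [h4, h5] at h2
          simpa using h2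
        exact Subtype.ext h1)
    let v : Fin (n + 1) × Bool → V := fun p =>
      Fin.cases (motive := fun _ => V) (if p.2 then x else y) (fun i => (w (i, p.2) : V)) p.1
    have v0 : ∀ b, v (0, b) = if b then x else y := fun b => rfl
    have vs : ∀ i b, v (Fin.succ i, b) = w (i, b) := fun i b => rfl
    have hwx : ∀ p, B x (w p) = 0 := fun p => ((hWmem _).mp (w p).2).1
    have hwy : ∀ p, B y (w p) = 0 := fun p => ((hWmem _).mp (w p).2).2
    have hgram : ∀ i j, B (v i) (v j) =
        if j = (i.1, !i.2) then (if i.2 then 1 else -1) else 0 := by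
      rintro ⟨i, b⟩ ⟨j, c⟩
      refine Fin.cases ?_ (fun i => ?_) i
      · refine Fin.cases ?_ (fun j => ?_) j
        · rw [v0, v0]
          cases b <;> cases c <;> simp [hself, hxy, hyx]
        · rw [v0, vs]
          cases b <;> simp [hwx, hwy, Fin.succ_ne_zero]
      · refine Fin.cases ?_ (fun j => ?_) j
        · rw [v0, vs]
          rw [hskew]
          cases c <;> simp [hwx, hwy, (Fin.succ_ne_zero _).symm]
        · rw [vs, vs]
          have h1 := hw (i, b) (j, c)
          simp only [LinearMap.domRestrict₁₂_apply] at h1
          rw [h1]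
          simp [Prod.ext_iff, Fin.succ_inj]
    have hli : LinearIndependent K v := by
      rw [Fintype.linearIndependent_iff]
      intro g hg p
      have h1 : B (∑ q, g q • v q) (v (p.1, !p.2)) = 0 := by
        rw [hg, map_zero, LinearMap.zero_apply]
      rw [map_sum, LinearMap.sum_apply, Finset.sum_eq_single p] at h1
      · rw [map_smul, LinearMap.smul_apply, hgram, if_pos rfl, smul_eq_mul] at h1
        rcases mul_eq_zero.mp h1 with h2 | h2
        · exact h2
        · split_ifs at h2 <;> norm_num at h2
      · intro q _ hq
        rw [map_smul, LinearMap.smul_apply, hgram, if_neg, smul_zero]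
        intro h2
        apply hq
        rw [Prod.ext_iff] at h2 ⊢
        refine ⟨h2.1.symm, ?_⟩
        have h3 := h2.2
        simp only at h3
        exact (Bool.not_inj h3).symm
      · intro h2
        exact absurd (Finset.mem_univ p) h2
    have hspan : ⊤ ≤ Submodule.span K (Set.range v) := by
      intro z _
      have h1 : ∀ u ∈ W, u ∈ Submodule.span K (Set.range v) := by
        intro u hu
        have h2 : (⟨u, hu⟩ : W) = ∑ p, w.repr ⟨u, hu⟩ p • w p := (w.sum_repr _).symm
        have h3 : u = ∑ p, w.repr ⟨u, hu⟩ p • (w p : V) := by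
          have h4 := congrArg W.subtype h2
          rw [map_sum] at h4
          simp only [map_smul, Submodule.subtype_apply] at h4
          exact h4
        rw [h3]
        refine Submodule.sum_mem _ fun p _ => Submodule.smul_mem _ _ ?_
        apply Submodule.subset_span
        exact ⟨(Fin.succ p.1, p.2), vs p.1 p.2⟩
      have h2 : z = (z - B z y • x + B z x • y) + (B z y • x - B z x • y) := by abel
      rw [h2]
      refine Submodule.add_mem _ (h1 _ (hdec z)) (Submodule.sub_mem _ ?_ ?_)
      · exact Submodule.smul_mem _ _ (Submodule.subset_span ⟨(0, true), rfl⟩)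
      · exact Submodule.smul_mem _ _ (Submodule.subset_span ⟨(0, false), rfl⟩)
    refine ⟨n + 1, Module.Basis.mk hli hspan, fun i j => ?_⟩
    rw [Module.Basis.mk_apply, Module.Basis.mk_apply]
    exact hgram i j

theorem p_alt : Pool.Agent.W2helper37.SG.P_ALT.{w} := by
  intro K _ _ V _ _ _ B h1 h2
  exact alt_aux K _ V B rfl h1 h2

end Pool.Agent.W2helper91.SG
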